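import Pool.Agent.H45.EGH.S1

/-!
# EGH, module PRM: permutation of a homogeneous regular sequence of length two
-/

set_option autoImplicit false

namespace Pool.EGH.PRMh

open MvPolynomial

variable {K : Type} [Field K] {N : ℕ}

/-- The homogeneous components of a product with a form. -/
theorem comp_mul {a : ℕ} {f : PR K N} (hf : f ∈ fm K N a) (y : PR K N) (d : ℕ) :
    homogeneousComponent d (f * y) =
      if a ≤ d then f * homogeneousComponent (d - a) y else 0 := by
  have hs : ∀ e : ℕ, homogeneousComponent d (f * homogeneousComponent e y) =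
      if d = a + e then f * homogeneousComponent e y else 0 := by
    intro e
    exact homogeneousComponent_of_mem
      (MvPolynomial.IsHomogeneous.mul hf (homogeneousComponent_isHomogeneous e y))
  have h1 : homogeneousComponent d (f * y) =
      ∑ e ∈ Finset.range (y.totalDegree + 1),
        if d = a + e then f * homogeneousComponent e y else 0 := by
    have h2 : f * y = ∑ e ∈ Finset.range (y.totalDegree + 1),
        f * homogeneousComponent e y := by
      rw [← Finset.mul_sum, sum_homogeneousComponent]
    calc homogeneousComponent d (f * y)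
        = homogeneousComponent d (∑ e ∈ Finset.range (y.totalDegree + 1),
            f * homogeneousComponent e y) := by rw [← h2]
      _ = _ := by
          rw [map_sum]
          exact Finset.sum_congr rfl fun e _ => hs e
  rw [h1]
  by_cases had : a ≤ d
  · rw [if_pos had]
    by_cases hmem : d - a ∈ Finset.range (y.totalDegree + 1)
    · rw [Finset.sum_eq_single_of_mem _ hmem]
      · rw [if_pos (by omega)]
      · intro e _ he
        rw [if_neg (by omega)]
    · have hz : homogeneousComponent (d - a) y = 0 :=
        homogeneousComponent_eq_zero _ _ (by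
          rw [Finset.mem_range] at hmem
          omega)
      rw [hz, mul_zero]
      refine Finset.sum_eq_zero fun e he => ?_
      rw [if_neg]
      intro hde
      apply hmem
      have : d - a = e := by omega
      rw [this]
      exact he
  · rw [if_neg had]
    refine Finset.sum_eq_zero fun e _ => ?_
    rw [if_neg (by omega)]

/-- The homogeneous elements of `J : g` are in `J`. -/
theorem low {a : ℕ} {J : Ideal (PR K N)} {f g : PR K N} (hJ : Hg J) (ha : 1 ≤ a)
    (hf : f ∈ fm K N a) (h1 : Rg J f)
    (h2 : Rg (J ⊔ Ideal.span {f}) g) :
    ∀ d : ℕ, ∀ z ∈ fm K N d, g * z ∈ J → z ∈ J := by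
  intro d
  induction d using Nat.strong_induction_on with
  | _ d ih =>
    intro z hz hgz
    have hz1 : z ∈ J ⊔ Ideal.span {f} := h2 z (Ideal.mem_sup_left hgz)
    obtain ⟨j, hj, w, hw, hjw⟩ := Submodule.mem_sup.mp hz1
    obtain ⟨y, rfl⟩ := Ideal.mem_span_singleton'.mp hw
    have hzd : z = homogeneousComponent d j + homogeneousComponent d (f * y) := by
      have h3 : homogeneousComponent d z = z := by
        rw [homogeneousComponent_of_mem hz, if_pos rfl]
      calc z = homogeneousComponent d z := h3.symm
        _ = homogeneousComponent d (j + f * y) := by rw [← hjw, mul_comm y f]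
        _ = _ := map_add _ _ _
    rw [comp_mul hf y d] at hzd
    have hjd : homogeneousComponent d j ∈ J := hJ j hj d
    by_cases had : a ≤ d
    · rw [if_pos had] at hzd
      set u : PR K N := homogeneousComponent (d - a) y with hu
      have h4 : f * (g * u) ∈ J := by
        have h5 : f * (g * u) = g * z - g * homogeneousComponent d j := by
          rw [hzd]; ring
        rw [h5]
        exact J.sub_mem hgz (J.mul_mem_left g hjd)
      have h6 : g * u ∈ J := h1 _ h4
      have h7 : u ∈ J := ih (d - a) (by omega) u (homogeneousComponent_mem _ _) h6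
      rw [hzd]
      exact J.add_mem hjd (J.mul_mem_left f h7)
    · rw [if_neg had, add_zero] at hzd
      rw [hzd]
      exact hjd

end Pool.EGH.PRMh

namespace Pool.EGH

open MvPolynomial

/-- PRM: permutation of a homogeneous regular sequence of length two. -/
theorem t_PRM (h : HGAStmt) : PRMStmt := by
  intro K _ N a b J f g hJ ha _ hf hg h1 h2
  refine ⟨?_, ?_⟩
  · intro z hz
    have hcl : Hg (clI J g) := ((h K N).2.1 J b g hJ hg).2
    have hzc : ∀ d, homogeneousComponent d z ∈ J := fun d =>
      PRMh.low hJ ha hf h1 h2 d _ (homogeneousComponent_mem _ _) (hcl z hz d)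
    rw [← sum_homogeneousComponent z]
    exact J.sum_mem fun d _ => hzc d
  · intro z hz
    obtain ⟨j, hj, w, hw, hjw⟩ := Submodule.mem_sup.mp hz
    obtain ⟨y, rfl⟩ := Ideal.mem_span_singleton'.mp hw
    have h3 : g * y ∈ J ⊔ Ideal.span {f} := by
      have h4 : g * y = f * z - j := by rw [← hjw]; ring
      rw [h4]
      exact Ideal.sub_mem _ (Ideal.mem_sup_right
        (Ideal.mul_mem_right z _ (Ideal.mem_span_singleton_self f))) (Ideal.mem_sup_left hj)
    obtain ⟨j', hj', w', hw', hjw'⟩ := Submodule.mem_sup.mp (h2 y h3)
    obtain ⟨y', rfl⟩ := Ideal.mem_span_singleton'.mp hw'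
    have h5 : f * (z - g * y') ∈ J := by
      have h6 : f * (z - g * y') = j + g * j' := by
        have h7 : f * z = j + y * g := hjw.symm
        rw [← hjw'] at h7
        linear_combination h7
      rw [h6]
      exact J.add_mem hj (J.mul_mem_left g hj')
    have h8 : z - g * y' ∈ J := h1 _ h5
    have h9 : z = (z - g * y') + g * y' := by ring
    rw [h9]
    exact Ideal.add_mem _ (Ideal.mem_sup_left h8) (Ideal.mem_sup_right
      (Ideal.mul_mem_right y' _ (Ideal.mem_span_singleton_self g)))

end Pool.EGH
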