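import Pool.Agent.H45.EGH.S2

/-!
# EGH, module GPD: the dimensions of the pieces
-/

set_option autoImplicit false

namespace Pool.EGH.GPDh

open MvPolynomial

variable {K : Type} [Field K] {N : ℕ}

/-- The forms of degree `i` are finite dimensional. -/
theorem fin (i : ℕ) : Module.Finite K ↥(fm K N i) :=
  Module.Finite.iff_fg.mpr (homogeneousSubmodule_fg (Fin N) K i)

/-- The dimension of a piece of the quotient. -/
theorem dim (Q : Ideal (PR K N)) (i : ℕ) : Module.finrank K ↥(gp Q i) = hf Q i := by
  have := fin (K := K) (N := N) i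
  have hk : LinearMap.ker (Ideal.Quotient.mkₐ K Q).toLinearMap = Q.restrictScalars K := by
    ext z
    exact Ideal.Quotient.eq_zero_iff_mem
  have h1 := LinearMap.finrank_range_add_finrank_ker
    ((Ideal.Quotient.mkₐ K Q).toLinearMap.domRestrict (fm K N i))
  rw [LinearMap.range_domRestrict, LinearMap.ker_domRestrict, hk] at h1
  have h2 : Module.finrank K ↥((Q.restrictScalars K).comap (fm K N i).subtype) =
      Module.finrank K ↥(Q.restrictScalars K ⊓ fm K N i) := by
    rw [← Submodule.finrank_map_subtype_eq, Submodule.map_comap_subtype, inf_comm]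
  rw [h2] at h1
  unfold hf
  change Module.finrank K ↥(Submodule.map (Ideal.Quotient.mkₐ K Q).toLinearMap (fm K N i)) = _
  omega

end Pool.EGH.GPDh

namespace Pool.EGH

open MvPolynomial

/-- GPD: the dimensions of the pieces. -/
theorem t_GPD (h1 : CHFStmt) (_h2 : HGAStmt) : GPDStmt := by
  intro K _ N Q
  refine ⟨fun _ i => GPDh.dim Q i, ?_⟩
  rintro n ⟨k, hk, hM⟩ i
  rw [GPDh.dim]
  exact h1 K N k n Q hk hM i

end Pool.EGH
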