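import Pool.Agent.H45.EGH.S3

/-!
# EGH, module P66: growth of spaces of degree 2
-/

set_option autoImplicit false

namespace Pool.EGH

open MvPolynomial

/-- P66: growth of spaces of degree 2. -/
theorem t_P66 (h1 : P6AStmt) (h2 : KC6Stmt) (h3 : KF3Stmt) (h4 : JJ4Stmt) : P66Stmt := by
  intro K _ _ Q U hQ hU
  by_cases h5 : 5 ≤ Module.finrank K U
  · exact h1 K 6 Q U hQ hU h5
  by_cases hK : KF Q U
  · obtain ⟨hA, hB, hC⟩ := h3 K 6 Q U hQ hU hK
    have h6 : Module.finrank K U = 0 ∨ Module.finrank K U = 1 ∨ Module.finrank K U = 2 ∨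
        Module.finrank K U = 3 ∨ Module.finrank K U = 4 := by omega
    rcases h6 with h | h | h | h | h
    · rw [h]
      have : b2 (15 - 0) = 20 := by decide
      omega
    · rw [h, hA h]
      decide
    · have h7 := hB h
      rw [h]
      have : b2 (15 - 2) = 13 := by decide
      omega
    · have h7 := hC h
      rw [h]
      have : b2 (15 - 3) = 11 := by decide
      omega
    · have h7 : ¬ dg Q U ≤ 9 := fun h9 => h4 K Q U ⟨hQ, hU, h, hK, h9⟩
      rw [h]
      have : b2 (15 - 4) = 10 := by decide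
      omega
  · exact h2 K 6 Q U hQ hU hK (by omega)

end Pool.EGH
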