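import Pool.Agent.H45.EGH.S1

/-!
# EGH, module PER: a regular linear form may be put in front
-/

set_option autoImplicit false

namespace Pool.EGH

open MvPolynomial

/-- PER: a regular linear form may be put in front. -/
theorem t_PER (h1 : PRMStmt) (h2 : HGAStmt) : PERStmt := by
  intro K _ N k r J l hM hl hr
  induction hM with
  | zero => exact MCI.lin MCI.zero hl hr
  | lin hM' hl' hr' _ => exact MCI.lin (MCI.lin hM' hl' hr') hl hr
  | @quad k r J q hM' hq hrq ih =>
    have hJ : Hg J := (h2 K N).2.2.2 _ _ _ hM'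
    obtain ⟨h3, h4⟩ := h1 K N 2 1 J q l hJ (by norm_num) (by norm_num) hq hl hrq hr
    have h5 := MCI.quad (ih h3) hq h4
    have h6 : J ⊔ Ideal.span {l} ⊔ Ideal.span {q} = J ⊔ Ideal.span {q} ⊔ Ideal.span {l} :=
      sup_right_comm _ _ _
    rw [h6] at h5
    exact h5

end Pool.EGH
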