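import Pool.Agent.H45.EGH.S1

/-!
# EGH, module RGL: from lists of quadrics
-/

set_option autoImplicit false

namespace Pool.EGH

open MvPolynomial

/-- RGL: from lists of quadrics. -/
theorem t_RGL : RGLStmt := by
  intro K _ N rs
  induction rs using List.reverseRecOn with
  | nil =>
    intro _ _
    rw [Ideal.ofList_nil]
    exact MCI.zero
  | append_singleton l a ih =>
    intro hh hr
    rw [RingTheory.Sequence.isWeaklyRegular_append_iff] at hr
    obtain ⟨h1, h2⟩ := hr
    rw [RingTheory.Sequence.isWeaklyRegular_singleton_iff] at h2
    have h3 : Rg (Ideal.ofList l) a := by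
      intro z hz
      have h4 : a • (Submodule.Quotient.mk z :
          PR K N ⧸ (Ideal.ofList l • ⊤ : Submodule (PR K N) (PR K N))) = a • 0 := by
        rw [smul_zero, ← Submodule.Quotient.mk_smul, Submodule.Quotient.mk_eq_zero,
          smul_eq_mul, Ideal.mul_top]
        exact hz
      have h5 := h2 h4
      rw [Submodule.Quotient.mk_eq_zero, Ideal.smul_eq_mul, Ideal.mul_top] at h5
      exact h5
    have h4 := MCI.quad (ih (fun f hf => hh f (List.mem_append_left _ hf)) h1)
      (hh a (by simp)) h3
    rw [Ideal.ofList_append, Ideal.ofList_singleton, List.length_append]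
    exact h4

end Pool.EGH
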